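import Pool.Agent.Run7.h495.SV.Stm

/-! # Piece INF of project SV (MP_fd6526_gt) -/

set_option autoImplicit false

open MeasureTheory Set Filter Topology Metric Module
open scoped ENNReal

namespace Pool.Agent.Run7.h270.SV

open Pool.Agent.Run7.h495.SV

/-- a half-infinite box has infinite volume -/
lemma box_top (n : ℕ) (i₀ : Fin n) (X : ℝ) :
    volume {x : Eu n | X < x i₀ ∧ ∀ i, i ≠ i₀ → |x i| ≤ 1} = ⊤ := by
  have hset : {x : Eu n | X < x i₀ ∧ ∀ i, i ≠ i₀ → |x i| ≤ 1} =
      (@WithLp.ofLp 2 (Fin n → ℝ)) ⁻¹'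
        (Set.pi Set.univ fun i => if i = i₀ then Ioi X else Icc (-1) 1) := by
    ext x
    simp only [Set.mem_preimage, Set.mem_pi, Set.mem_univ, forall_true_left, mem_ofPred_eq]
    constructor
    · rintro ⟨h1, h2⟩ i
      by_cases hi : i = i₀
      · rw [if_pos hi, hi]
        exact h1
      · rw [if_neg hi]
        exact abs_le.1 (h2 i hi)
    · intro h
      constructor
      · have := h i₀
        rw [if_pos rfl] at this
        exact this
      · intro i hi
        have := h i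
        rw [if_neg hi] at this
        exact abs_le.2 this
  have hm : MeasurableSet (Set.pi Set.univ fun i : Fin n => if i = i₀ then Ioi X else Icc (-1) 1) := by
    apply MeasurableSet.univ_pi
    intro i
    by_cases hi : i = i₀
    · rw [if_pos hi]
      exact measurableSet_Ioi
    · rw [if_neg hi]
      exact measurableSet_Icc
  rw [hset, (PiLp.volume_preserving_ofLp (Fin n)).measure_preimage hm.nullMeasurableSet,
    volume_pi_pi, ← Finset.mul_prod_erase Finset.univ _ (Finset.mem_univ i₀), if_pos rfl,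
    Real.volume_Ioi]
  apply ENNReal.top_mul
  rw [Finset.prod_ne_zero_iff]
  intro i hi
  rw [if_neg (Finset.ne_of_mem_erase hi), Real.volume_Icc]
  norm_num

theorem t_INF : S_LOW → S_INF := by
  intro hLOW n hn q hq c hc
  obtain ⟨i₀⟩ : Nonempty (Fin n) := ⟨⟨0, by omega⟩⟩
  obtain ⟨c', hc', hlow⟩ := hLOW n i₀ q hq
  have hn3 : (3:ℝ) ≤ n := by exact_mod_cast hn
  have he : 0 < (n:ℝ) + q - 3 := by linarith
  have hlim := tendsto_rpow_neg_atTop he
  have hev := (hlim.eventually (gt_mem_nhds (show (0:ℝ) < c * c' by positivity))).and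
    (eventually_ge_atTop (8:ℝ))
  obtain ⟨X, hX⟩ := eventually_atTop.1 hev
  refine top_unique ?_
  rw [← box_top n i₀ (max X 8)]
  apply measure_mono
  rintro x ⟨hx1, hx2⟩
  rw [mem_ofPred_eq]
  have hxX : X ≤ x i₀ := (le_max_left _ _).trans hx1.le
  have hx8 : 8 ≤ x i₀ := (le_max_right _ _).trans hx1.le
  have hx0 : 0 < x i₀ := by linarith
  have h1 := (hX (x i₀) hxX).1
  have h2 := hlow x hx2 hx8
  have hnorm : x i₀ ≤ ‖x‖ := by
    have h3 := EuclideanSpace.norm_eq x
    have h4 : (x i₀) ^ 2 ≤ ∑ i, ‖x i‖ ^ 2 := by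
      have h5 : ‖x i₀‖ ^ 2 = (x i₀) ^ 2 := by rw [Real.norm_eq_abs, sq_abs]
      rw [← h5]
      exact Finset.single_le_sum (f := fun i => ‖x i‖ ^ 2) (fun i _ => sq_nonneg _)
        (Finset.mem_univ i₀)
    rw [h3]
    exact Real.le_sqrt_of_sq_le h4
  have h6 : ‖x‖ ^ (1 - n - q : ℝ) ≤ x i₀ ^ (1 - n - q : ℝ) :=
    Real.rpow_le_rpow_of_nonpos hx0 hnorm (by linarith)
  have h7 : x i₀ ^ (1 - n - q : ℝ) = x i₀ ^ (-((n:ℝ) + q - 3)) / x i₀ ^ 2 := by
    rw [eq_div_iff (by positivity), ← Real.rpow_natCast, ← Real.rpow_add hx0]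
    congr 1
    push_cast
    ring
  have h8 : x i₀ ^ (1 - n - q : ℝ) < c * c' / x i₀ ^ 2 := by
    rw [h7]
    exact div_lt_div_of_pos_right h1 (by positivity)
  calc ENNReal.ofReal (‖x‖ ^ (1 - n - q : ℝ))
      < ENNReal.ofReal (c * (c' / x i₀ ^ 2)) := by
        rw [ENNReal.ofReal_lt_ofReal_iff (by positivity), ← mul_div_assoc]
        exact lt_of_le_of_lt h6 h8
    _ = ENNReal.ofReal c * ENNReal.ofReal (c' / x i₀ ^ 2) := ENNReal.ofReal_mul hc.le
    _ ≤ _ := mul_le_mul_right h2 _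

end Pool.Agent.Run7.h270.SV

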