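import Pool.Agent.Run7.h495.SV.Stm

/-! # Piece LOW of project SV (MP_fd6526_gt) -/

set_option autoImplicit false

open MeasureTheory Set Filter Topology Metric Module
open scoped ENNReal

namespace Pool.Agent.Run7.h270.SV

open Pool.Agent.Run7.h495.SV

lemma sinc_pos {y : ℝ} (h0 : 0 < y) (h1 : y ≤ 1) : 1 ≤ 4 * Real.sinc y ^ 2 := by
  have h2 : 1 / 2 ≤ Real.sinc y := by
    rw [Real.sinc_of_ne_zero h0.ne', le_div_iff₀ h0]
    have h3 := Real.sin_gt_sub_cube h0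
    have h4 : y ^ 3 ≤ y := by
      have h5 : y ^ 2 ≤ 1 := by nlinarith
      calc y ^ 3 = y * y ^ 2 := by ring
        _ ≤ y * 1 := mul_le_mul_of_nonneg_left h5 h0.le
        _ = y := mul_one y
    linarith
  nlinarith

lemma sinc_low {y : ℝ} (h : |y| ≤ 1) : 1 ≤ 4 * Real.sinc y ^ 2 := by
  rcases lt_trichotomy y 0 with h0 | h0 | h0
  · rw [← Real.sinc_neg]
    rw [abs_of_neg h0] at h
    exact sinc_pos (by linarith) h
  · rw [h0, Real.sinc_zero]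
    norm_num
  · rw [abs_of_pos h0] at h
    exact sinc_pos h0 h

/-- primitive of `sin (a / s) ^ 2 / s ^ 2` -/
lemma hasDeriv (a : ℝ) (ha : a ≠ 0) (s : ℝ) (hs : s ≠ 0) :
    HasDerivAt (fun s : ℝ => -(1 / 2) * s⁻¹ + Real.sin (2 * a * s⁻¹) * (4 * a)⁻¹)
      (Real.sin (a * s⁻¹) ^ 2 * (s ^ 2)⁻¹) s := by
  have h1 := hasDerivAt_inv hs
  have h2 : HasDerivAt (fun s : ℝ => 2 * a * s⁻¹) (2 * a * (-(s ^ 2)⁻¹)) s := h1.const_mul _
  have h3 := (h1.const_mul (-(1 / 2))).add (h2.sin.mul_const ((4 * a)⁻¹))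
  refine h3.congr_deriv ?_
  have h4 : Real.cos (2 * a * s⁻¹) = 1 - 2 * Real.sin (a * s⁻¹) ^ 2 := by
    rw [show 2 * a * s⁻¹ = 2 * (a * s⁻¹) by ring, Real.cos_two_mul]
    have := Real.sin_sq_add_cos_sq (a * s⁻¹)
    linarith
  rw [h4]
  field_simp
  ring

lemma int_low (a : ℝ) (ha : 8 ≤ a) :
    3 / 16 ≤ ∫ s in (1:ℝ)..2, Real.sin (a * s⁻¹) ^ 2 * (s ^ 2)⁻¹ := by
  have ha0 : a ≠ 0 := by linarith
  have hpos : ∀ x ∈ Set.uIcc (1:ℝ) 2, x ≠ 0 := by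
    intro x hx
    rw [Set.uIcc_of_le (by norm_num)] at hx
    linarith [hx.1]
  have hint : IntervalIntegrable (fun s : ℝ => Real.sin (a * s⁻¹) ^ 2 * (s ^ 2)⁻¹) volume 1 2 := by
    apply ContinuousOn.intervalIntegrable
    have h1 : ContinuousOn (fun s : ℝ => s⁻¹) (Set.uIcc (1:ℝ) 2) :=
      continuousOn_inv₀.mono (fun x hx => hpos x hx)
    have h2 : ContinuousOn (fun s : ℝ => (s ^ 2)⁻¹) (Set.uIcc (1:ℝ) 2) :=
      (continuousOn_pow 2).inv₀ (fun x hx => pow_ne_zero 2 (hpos x hx))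
    exact ((Real.continuous_sin.comp_continuousOn (continuousOn_const.mul h1)).pow 2).mul h2
  rw [intervalIntegral.integral_eq_sub_of_hasDerivAt
    (fun s hs => hasDeriv a ha0 s (hpos s hs)) hint]
  have h1 := Real.neg_one_le_sin (2 * a * (2:ℝ)⁻¹)
  have h2 := Real.sin_le_one (2 * a * (1:ℝ)⁻¹)
  have h3 : (4 * a)⁻¹ ≤ 1 / 32 := by
    rw [inv_le_comm₀ (by linarith) (by norm_num)]
    linarith
  have h4 : 0 < (4 * a)⁻¹ := by positivity
  nlinarith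

theorem t_LOW : S_LOW := by
  intro n i₀ q hq
  obtain ⟨K, hK⟩ : ∃ K : ℝ, K = (2:ℝ) ^ (-1 - q - n) := ⟨_, rfl⟩
  have hK0 : 0 < K := by
    rw [hK]
    positivity
  refine ⟨3 / 4 * K, by positivity, ?_⟩
  intro x hx hx0
  obtain ⟨a, haa⟩ : ∃ a, a = x i₀ := ⟨_, rfl⟩
  rw [← haa] at hx0 ⊢
  have ha0 : 0 < a := by linarith
  -- pointwise
  have hpt : ∀ s ∈ Ioc (1:ℝ) 2,
      4 * K / a ^ 2 * (Real.sin (a * s⁻¹) ^ 2 * (s ^ 2)⁻¹) ≤ ker n q s x := by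
    intro s hs
    have hs0 : 0 < s := by linarith [hs.1]
    have hsi : s⁻¹ ≤ 1 := inv_le_one_of_one_le₀ hs.1.le
    have hsi0 : 0 < s⁻¹ := inv_pos.2 hs0
    have h1 : K ≤ s ^ (-1 - q - n : ℝ) := by
      rw [hK]
      apply Real.rpow_le_rpow_of_nonpos hs0 hs.2
      have : (0:ℝ) ≤ n := Nat.cast_nonneg n
      linarith
    have h2 : 4 / a ^ 2 * (Real.sin (a * s⁻¹) ^ 2 * (s ^ 2)⁻¹) ≤ covHat (s⁻¹ • x) := by
      unfold covHat
      rw [← Finset.mul_prod_erase Finset.univ _ (Finset.mem_univ i₀)]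
      have h3 : 1 ≤ ∏ i ∈ Finset.univ.erase i₀, 4 * Real.sinc ((s⁻¹ • x) i) ^ 2 := by
        rw [← Finset.prod_const_one (s := Finset.univ.erase i₀)]
        apply Finset.prod_le_prod
        · intro i _
          exact zero_le_one
        · intro i hi
          apply sinc_low
          rw [PiLp.smul_apply, smul_eq_mul, abs_mul, abs_of_pos hsi0]
          have h4 := hx i (Finset.ne_of_mem_erase hi)
          calc s⁻¹ * |x i| ≤ 1 * 1 := mul_le_mul hsi h4 (abs_nonneg _) zero_le_one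
            _ = 1 := one_mul 1
      have h5 : 4 / a ^ 2 * (Real.sin (a * s⁻¹) ^ 2 * (s ^ 2)⁻¹) ≤
          4 * Real.sinc ((s⁻¹ • x) i₀) ^ 2 := by
        rw [PiLp.smul_apply, smul_eq_mul, ← haa, mul_comm s⁻¹ a,
          Real.sinc_of_ne_zero (by positivity), div_pow, mul_pow, inv_pow]
        have h6 : (s ^ 2)⁻¹ ≤ s ^ 2 := by
          have h7 : 1 ≤ s ^ 2 := by nlinarith [hs.1]
          exact (inv_le_one_of_one_le₀ h7).trans h7
        calc 4 / a ^ 2 * (Real.sin (a * s⁻¹) ^ 2 * (s ^ 2)⁻¹)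
            ≤ 4 / a ^ 2 * (Real.sin (a * s⁻¹) ^ 2 * s ^ 2) := by gcongr
          _ = 4 * (Real.sin (a * s⁻¹) ^ 2 / (a ^ 2 * (s ^ 2)⁻¹)) := by
              field_simp
      have h8 : 0 ≤ 4 * Real.sinc ((s⁻¹ • x) i₀) ^ 2 := by positivity
      calc 4 / a ^ 2 * (Real.sin (a * s⁻¹) ^ 2 * (s ^ 2)⁻¹)
          ≤ 4 * Real.sinc ((s⁻¹ • x) i₀) ^ 2 := h5
        _ = 4 * Real.sinc ((s⁻¹ • x) i₀) ^ 2 * 1 := (mul_one _).symm
        _ ≤ _ := mul_le_mul_of_nonneg_left h3 h8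
    unfold Pool.Agent.Run7.h495.SV.ker
    have h9 : 0 ≤ 4 / a ^ 2 * (Real.sin (a * s⁻¹) ^ 2 * (s ^ 2)⁻¹) := by positivity
    calc 4 * K / a ^ 2 * (Real.sin (a * s⁻¹) ^ 2 * (s ^ 2)⁻¹)
        = K * (4 / a ^ 2 * (Real.sin (a * s⁻¹) ^ 2 * (s ^ 2)⁻¹)) := by ring
      _ ≤ s ^ (-1 - q - n : ℝ) * covHat (s⁻¹ • x) :=
          mul_le_mul h1 h2 h9 (by positivity)
  have hsub : Ioc (1:ℝ) 2 ⊆ Ioi 0 := fun s hs => lt_trans zero_lt_one hs.1
  have hint : IntegrableOn (fun s : ℝ => 4 * K / a ^ 2 * (Real.sin (a * s⁻¹) ^ 2 * (s ^ 2)⁻¹))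
      (Ioc 1 2) := by
    have hpos : ∀ x ∈ Set.Icc (1:ℝ) 2, x ≠ 0 := fun x hx => by linarith [hx.1]
    have h1 : ContinuousOn (fun s : ℝ => s⁻¹) (Set.Icc (1:ℝ) 2) :=
      continuousOn_inv₀.mono (fun x hx => hpos x hx)
    have h2 : ContinuousOn (fun s : ℝ => (s ^ 2)⁻¹) (Set.Icc (1:ℝ) 2) :=
      (continuousOn_pow 2).inv₀ (fun x hx => pow_ne_zero 2 (hpos x hx))
    have h3 : ContinuousOn (fun s : ℝ => 4 * K / a ^ 2 * (Real.sin (a * s⁻¹) ^ 2 * (s ^ 2)⁻¹))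
        (Set.Icc (1:ℝ) 2) :=
      continuousOn_const.mul
        (((Real.continuous_sin.comp_continuousOn (continuousOn_const.mul h1)).pow 2).mul h2)
    exact (h3.integrableOn_Icc).mono_set Ioc_subset_Icc_self
  calc ENNReal.ofReal (3 / 4 * K / a ^ 2)
      ≤ ENNReal.ofReal (∫ s in Ioc (1:ℝ) 2,
          4 * K / a ^ 2 * (Real.sin (a * s⁻¹) ^ 2 * (s ^ 2)⁻¹)) := by
        apply ENNReal.ofReal_le_ofReal
        rw [integral_const_mul, ← intervalIntegral.integral_of_le (by norm_num)]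
        have h1 := int_low a hx0
        calc 3 / 4 * K / a ^ 2 = 4 * K / a ^ 2 * (3 / 16) := by ring
          _ ≤ _ := mul_le_mul_of_nonneg_left h1 (by positivity)
    _ = ∫⁻ s in Ioc (1:ℝ) 2, ENNReal.ofReal
          (4 * K / a ^ 2 * (Real.sin (a * s⁻¹) ^ 2 * (s ^ 2)⁻¹)) := by
        rw [ofReal_integral_eq_lintegral_ofReal hint]
        exact Eventually.of_forall fun s => by positivity
    _ ≤ ∫⁻ s in Ioc (1:ℝ) 2, ENNReal.ofReal (ker n q s x) := by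
        apply setLIntegral_mono' measurableSet_Ioc
        intro s hs
        exact ENNReal.ofReal_le_ofReal (hpt s hs)
    _ ≤ ∫⁻ s in Ioi (0:ℝ), ENNReal.ofReal (ker n q s x) := lintegral_mono_set hsub

end Pool.Agent.Run7.h270.SV

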